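import Pool.Agent.H2.NF.S3

/-!
# NF, row LBQ: local data over the rational numbers, change of the basis, sums

Change of the basis, addition of a form with a self-dual lattice, self-dual lattices.
-/

set_option autoImplicit false

namespace Pool.NF

open Polynomial Matrix Pool.HYP Pool.TOW Pool.AVS Pool.T1 IsDedekindDomain NumberField

namespace LBQaux

/-- The inverse of a matrix invertible over a valuation ring. -/
private theorem inv_mem {L : Type} [Field L] (O : ValuationSubring L) {κ : Type} [Fintype κ]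
    [DecidableEq κ] (M : Matrix κ κ L) (hM : GInI (O : Set L) M) (y : κ → L)
    (hy : ∀ i, (M *ᵥ y) i ∈ O) (i : κ) : y i ∈ O := by
  obtain ⟨h1, h2, -, h4⟩ := hM
  obtain ⟨M0, hM0⟩ : ∃ M0 : Matrix κ κ O, M = M0.map (algebraMap O L) :=
    ⟨Matrix.of fun i j => ⟨M i j, h1 i j⟩, by ext i j; rfl⟩
  have e1 : y = M.det⁻¹ • (M.adjugate *ᵥ (M *ᵥ y)) := by
    rw [Matrix.mulVec_mulVec, Matrix.adjugate_mul, Matrix.smul_mulVec, Matrix.one_mulVec,
      smul_smul, inv_mul_cancel₀ h2, one_smul]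
  rw [e1]
  have e2 : M.adjugate = M0.adjugate.map (algebraMap O L) := by
    rw [hM0]
    exact (RingHom.map_adjugate (algebraMap O L) M0).symm
  show M.det⁻¹ * (M.adjugate *ᵥ (M *ᵥ y)) i ∈ O
  refine O.mul_mem _ _ h4 ?_
  rw [e2]
  show ∑ j, (M0.adjugate i j : L) * (M *ᵥ y) j ∈ O
  exact O.toSubring.sum_mem fun j _ => O.mul_mem _ _ (M0.adjugate i j).2 (hy j)

/-- The pairing in the new basis. -/
private theorem dot_basis {L : Type} [Field L] {ι : Type} [Fintype ι] (G h : Matrix ι ι L)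
    (x y : ι → L) : (h *ᵥ x) ⬝ᵥ (G *ᵥ (h *ᵥ y)) = x ⬝ᵥ ((hᵀ * G * h) *ᵥ y) := by
  rw [← Matrix.mulVec_mulVec, ← Matrix.mulVec_mulVec, Matrix.dotProduct_mulVec x hᵀ,
    Matrix.vecMul_transpose]

private theorem mul_basis {L : Type} [Field L] {ι : Type} [Fintype ι] (G g h : Matrix ι ι L)
    (y : ι → L) : (h * g)ᵀ *ᵥ (G *ᵥ (h *ᵥ y)) = gᵀ *ᵥ ((hᵀ * G * h) *ᵥ y) := by
  simp only [Matrix.transpose_mul, Matrix.mulVec_mulVec, Matrix.mul_assoc]

/-- One direction of the change of the basis. -/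
private theorem loc_basis {ι : Type} [Fintype ι] [DecidableEq ι] (p : ℕ) (G h : Matrix ι ι ℚ)
    (m : ℕ) (δ : ZMod p) (hh : h.det ≠ 0) (hL : LocZ p (hᵀ * G * h) m δ) : LocZ p G m δ := by
  obtain ⟨g, τ, _, _, u, hg, hc, hM, hu, hp, hx, hδ⟩ := hL
  have hhu : IsUnit h.det := hh.isUnit
  refine ⟨h * g, τ, inferInstance, inferInstance, fun e => h *ᵥ u e, ?_, hc, ?_, ?_, ?_, ?_, ?_⟩
  · rw [Matrix.det_mul]
    exact mul_ne_zero hh hg
  · have e : (h * g)ᵀ * G * (h * g) = gᵀ * (hᵀ * G * h) * g := by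
      simp only [Matrix.transpose_mul, Matrix.mul_assoc]
    rw [e]
    exact hM
  · intro e i
    show ((h * g)ᵀ *ᵥ (G *ᵥ (h *ᵥ u e))) i ∈ IZ p
    rw [mul_basis]
    exact hu e i
  · intro e e'
    show (p : ℚ) * ((h *ᵥ u e) ⬝ᵥ (G *ᵥ (h *ᵥ u e'))) ∈ IZ p
    rw [dot_basis]
    exact hp e e'
  · intro x hx1 hx2 i
    obtain ⟨y, rfl⟩ : ∃ y, x = h *ᵥ y :=
      ⟨h⁻¹ *ᵥ x, by rw [Matrix.mulVec_mulVec, Matrix.mul_nonsing_inv _ hhu, Matrix.one_mulVec]⟩
    have e1 : (h * g)⁻¹ *ᵥ (h *ᵥ y) = g⁻¹ *ᵥ y := by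
      rw [Matrix.mul_inv_rev, Matrix.mulVec_mulVec, Matrix.mul_assoc,
        Matrix.nonsing_inv_mul _ hhu, Matrix.mul_one]
    rw [e1]
    refine hx y (fun i => ?_) (fun e => ?_) i
    · rw [← mul_basis]
      exact hx1 i
    · rw [← dot_basis]
      exact hx2 e
  · rw [hδ]
    congr 2
    ext e e'
    show rz p _ = rz p _
    rw [← dot_basis]

end LBQaux

open LBQaux in
/-- LBQ. -/
theorem lbq (hIZV : IZVStmt) : LBQStmt := by
  intro p hp ι κ _ _ _ _ G h G' h' m δ hh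
  obtain ⟨O, hO, -, -⟩ := hIZV p hp
  have h0 : (0 : ℚ) ∈ IZ p := by rw [← hO]; exact O.zero_mem
  have hhu : IsUnit h.det := hh.isUnit
  refine ⟨⟨loc_basis p G h m δ hh, fun hL => ?_⟩, fun hG => ?_, fun hL hh' hG' => ?_⟩
  · refine loc_basis p (hᵀ * G * h) h⁻¹ m δ ?_ ?_
    · rw [Matrix.det_nonsing_inv]
      exact (Ring.inverse_unit hhu.unit ▸ (Units.ne_zero _) : Ring.inverse h.det ≠ 0)
    · have e : (h⁻¹)ᵀ * (hᵀ * G * h) * h⁻¹ = G := by
        have e1 : (h⁻¹)ᵀ * hᵀ = 1 := by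
          rw [← Matrix.transpose_mul, Matrix.mul_nonsing_inv _ hhu, Matrix.transpose_one]
        rw [← Matrix.mul_assoc, ← Matrix.mul_assoc, e1, Matrix.one_mul, Matrix.mul_assoc,
          Matrix.mul_nonsing_inv _ hhu, Matrix.mul_one]
      rw [e]
      exact hL
  · refine loc_basis p G h 0 1 hh ?_
    refine ⟨1, Empty, inferInstance, inferInstance, fun e => e.elim, ?_, rfl, ?_,
      fun e => e.elim, fun e => e.elim, ?_, ?_⟩
    · rw [Matrix.det_one]
      exact one_ne_zero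
    · rw [Matrix.transpose_one, Matrix.one_mul, Matrix.mul_one]
      exact hG.1
    · intro x hx1 _ i
      rw [inv_one, Matrix.one_mulVec, ← hO]
      refine inv_mem O (hᵀ * G * h) (by rw [hO]; exact hG) x (fun j => ?_) i
      have h3 := hx1 j
      rw [Matrix.transpose_one, Matrix.one_mulVec, ← hO] at h3
      exact h3
    · rw [pow_zero, one_mul, Matrix.det_isEmpty]
  · obtain ⟨g, τ, _, _, u, hg, hc, hM, hu, hpp, hx, hδ⟩ := hL
    have e0 : ∀ e, Matrix.fromBlocks G 0 0 G' *ᵥ Sum.elim (u e) (0 : κ → ℚ) =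
        Sum.elim (G *ᵥ u e) 0 := by
      intro e
      rw [Matrix.fromBlocks_mulVec]
      simp
    refine ⟨Matrix.fromBlocks g 0 0 h', τ, inferInstance, inferInstance,
      fun e => Sum.elim (u e) 0, ?_, hc, ?_, ?_, ?_, ?_, ?_⟩
    · rw [Matrix.det_fromBlocks_zero₂₁]
      exact mul_ne_zero hg hh'
    · have e : (Matrix.fromBlocks g 0 0 h')ᵀ * Matrix.fromBlocks G 0 0 G' *
          Matrix.fromBlocks g 0 0 h' =
          Matrix.fromBlocks (gᵀ * G * g) 0 0 (h'ᵀ * G' * h') := by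
        rw [Matrix.fromBlocks_transpose, Matrix.fromBlocks_multiply, Matrix.fromBlocks_multiply]
        simp only [Matrix.transpose_zero, Matrix.zero_mul, Matrix.mul_zero, add_zero, zero_add]
      rw [e]
      rintro (i | i) (j | j)
      · exact hM i j
      · exact h0
      · exact h0
      · exact hG'.1 i j
    · intro e i
      show ((Matrix.fromBlocks g 0 0 h')ᵀ *ᵥ
        (Matrix.fromBlocks G 0 0 G' *ᵥ Sum.elim (u e) (0 : κ → ℚ))) i ∈ IZ p
      have e2 : (Matrix.fromBlocks g 0 0 h')ᵀ *ᵥ Sum.elim (G *ᵥ u e) (0 : κ → ℚ) =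
          Sum.elim (gᵀ *ᵥ (G *ᵥ u e)) 0 := by
        rw [Matrix.fromBlocks_transpose, Matrix.fromBlocks_mulVec]
        simp
      rw [e0, e2]
      rcases i with i | i
      · exact hu e i
      · exact h0
    · intro e e'
      show (p : ℚ) * (Sum.elim (u e) (0 : κ → ℚ) ⬝ᵥ
        (Matrix.fromBlocks G 0 0 G' *ᵥ Sum.elim (u e') (0 : κ → ℚ))) ∈ IZ p
      rw [e0, sumElim_dotProduct_sumElim, zero_dotProduct, add_zero]
      exact hpp e e'
    · intro x hx1 hx2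
      obtain ⟨y, z', rfl⟩ : ∃ (x1 : ι → ℚ) (x2 : κ → ℚ), x = Sum.elim x1 x2 :=
        ⟨x ∘ Sum.inl, x ∘ Sum.inr, (Sum.elim_comp_inl_inr x).symm⟩
      obtain ⟨z, rfl⟩ : ∃ z, z' = h' *ᵥ z :=
        ⟨h'⁻¹ *ᵥ z', by
          rw [Matrix.mulVec_mulVec, Matrix.mul_nonsing_inv _ hh'.isUnit, Matrix.one_mulVec]⟩
      have e1 : Matrix.fromBlocks G 0 0 G' *ᵥ Sum.elim y (h' *ᵥ z) =
          Sum.elim (G *ᵥ y) (G' *ᵥ (h' *ᵥ z)) := by
        rw [Matrix.fromBlocks_mulVec]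
        simp
      have e2 : (Matrix.fromBlocks g 0 0 h')ᵀ *ᵥ Sum.elim (G *ᵥ y) (G' *ᵥ (h' *ᵥ z)) =
          Sum.elim (gᵀ *ᵥ (G *ᵥ y)) ((h'ᵀ * G' * h') *ᵥ z) := by
        rw [Matrix.fromBlocks_transpose, Matrix.fromBlocks_mulVec]
        simp [Matrix.mulVec_mulVec, Matrix.mul_assoc]
      rw [e1, e2] at hx1
      have k1 : ∀ i, (g⁻¹ *ᵥ y) i ∈ IZ p := by
        refine hx y (fun i => hx1 (Sum.inl i)) fun e => ?_
        have h3 := hx2 e
        have e4 : Sum.elim y (h' *ᵥ z) ⬝ᵥ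
            (Matrix.fromBlocks G 0 0 G' *ᵥ Sum.elim (u e) (0 : κ → ℚ)) = y ⬝ᵥ (G *ᵥ u e) := by
          rw [e0, sumElim_dotProduct_sumElim, dotProduct_zero, add_zero]
        rw [← e4]
        exact h3
      have k2 : ∀ i, z i ∈ IZ p := by
        intro i
        rw [← hO]
        refine inv_mem O (h'ᵀ * G' * h') (by rw [hO]; exact hG') z (fun i => ?_) i
        have h3 := hx1 (Sum.inr i)
        rw [← hO] at h3
        exact h3
      have e3 : (Matrix.fromBlocks g 0 0 h')⁻¹ = Matrix.fromBlocks g⁻¹ 0 0 h'⁻¹ := by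
        apply Matrix.inv_eq_left_inv
        rw [Matrix.fromBlocks_multiply]
        simp only [Matrix.zero_mul, Matrix.mul_zero, add_zero, zero_add,
          Matrix.nonsing_inv_mul _ hg.isUnit, Matrix.nonsing_inv_mul _ hh'.isUnit,
          Matrix.fromBlocks_one]
      have e5 : (Matrix.fromBlocks g 0 0 h')⁻¹ *ᵥ Sum.elim y (h' *ᵥ z) =
          Sum.elim (g⁻¹ *ᵥ y) z := by
        rw [e3, Matrix.fromBlocks_mulVec]
        have e7 : h'⁻¹ *ᵥ (h' *ᵥ z) = z := by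
          rw [Matrix.mulVec_mulVec, Matrix.nonsing_inv_mul _ hh'.isUnit, Matrix.one_mulVec]
        simp [e7]
      rw [e5]
      rintro (i | i)
      · exact k1 i
      · exact k2 i
    · rw [hδ]
      congr 2
      ext e e'
      show rz p _ = rz p ((p : ℚ) * (Sum.elim (u e) (0 : κ → ℚ) ⬝ᵥ
        (Matrix.fromBlocks G 0 0 G' *ᵥ Sum.elim (u e') (0 : κ → ℚ))))
      rw [e0, sumElim_dotProduct_sumElim, zero_dotProduct, add_zero]

end Pool.NF
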