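import Pool.Agent.H66.NF.U

/-!
# NF, row ADS: the unramified extension of a complete discrete valuation ring
-/

set_option autoImplicit false

namespace Pool.NF

open Polynomial IsLocalRing

namespace H49A

section Adic

variable {O M ι : Type} [CommRing O] [AddCommGroup M] [Module O M] [Fintype ι]

theorem mem_smul_iff (b : Module.Basis ι O M) (J : Ideal O) (x : M) :
    x ∈ (J • ⊤ : Submodule O M) ↔ ∀ i, b.repr x i ∈ J := by
  constructor
  · intro hx
    refine Submodule.smul_induction_on hx ?_ ?_
    · intro r hr y _ i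
      rw [map_smul, Finsupp.smul_apply, smul_eq_mul]
      exact J.mul_mem_right _ hr
    · intro y z hy hz i
      rw [map_add, Finsupp.add_apply]
      exact J.add_mem (hy i) (hz i)
  · intro h
    rw [← b.sum_repr x]
    exact Submodule.sum_mem _ fun i _ => Submodule.smul_mem_smul (h i) trivial

theorem adic_of_basis (b : Module.Basis ι O M) (I : Ideal O) (h : IsAdicComplete I O) :
    IsAdicComplete I M := by
  have hself : ∀ (n : ℕ) (a c : O), a ≡ c [SMOD (I ^ n • ⊤ : Submodule O O)] ↔ a - c ∈ I ^ n := by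
    intro n a c
    rw [SModEq.sub_mem, smul_eq_mul, Ideal.mul_top]
  have hM : ∀ (n : ℕ) (x y : M), x ≡ y [SMOD (I ^ n • ⊤ : Submodule O M)] ↔
      ∀ i, b.repr x i - b.repr y i ∈ I ^ n := by
    intro n x y
    rw [SModEq.sub_mem, mem_smul_iff b]
    simp only [map_sub, Finsupp.sub_apply]
  have hH : IsHausdorff I M := by
    refine ⟨fun x hx => ?_⟩
    have h0 : ∀ i, b.repr x i = 0 := fun i => by
      refine h.toIsHausdorff.haus _ fun n => ?_
      rw [hself]
      have h1 := (hM n x 0).1 (hx n) i
      rwa [map_zero, Finsupp.zero_apply] at h1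
    rw [← b.sum_repr x]
    exact Finset.sum_eq_zero fun i _ => by rw [h0 i, zero_smul]
  have hP : IsPrecomplete I M := by
    refine ⟨fun f hf => ?_⟩
    have h1 : ∀ i, ∃ L : O, ∀ n, b.repr (f n) i ≡ L [SMOD (I ^ n • ⊤ : Submodule O O)] := by
      intro i
      refine h.toIsPrecomplete.prec (f := fun n => b.repr (f n) i) ?_
      intro m n hmn
      rw [hself]
      exact (hM m _ _).1 (hf hmn) i
    choose L hL using h1
    refine ⟨∑ i, L i • b i, fun n => ?_⟩
    rw [hM]
    intro i
    have h2 := (hself n _ _).1 (hL i n)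
    rwa [b.repr_sum_self]
  exact { toIsHausdorff := hH, toIsPrecomplete := hP }

end Adic

end H49A

open H49A

theorem ads : ADSStmt := by
  intro O _ _ _ hc hfin F hF hirr
  have hirr2 : Irreducible (F.map (Ideal.Quotient.mk (maximalIdeal O))) := hirr
  have hFi : Irreducible F := Monic.irreducible_of_irreducible_map (residue O) F hF hirr
  have hprime : Prime F := UniqueFactorizationMonoid.irreducible_iff_prime.1 hFi
  have hdom : IsDomain (AdjoinRoot F) := AdjoinRoot.isDomain_of_prime hprime
  have hfinS : Module.Finite O (AdjoinRoot F) := hF.finite_adjoinRoot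
  have hintS : Algebra.IsIntegral O (AdjoinRoot F) := inferInstance
  have hnoe : IsNoetherianRing (AdjoinRoot F) := IsNoetherianRing.of_finite O (AdjoinRoot F)
  -- the ideal generated by the maximal ideal
  have hmax : ((maximalIdeal O).map (AdjoinRoot.of F)).IsMaximal := by
    have h1 : (Ideal.span {F.map (Ideal.Quotient.mk (maximalIdeal O))}).IsMaximal := by
      have : IsPrincipalIdealRing (O ⧸ maximalIdeal O)[X] :=
        inferInstanceAs (IsPrincipalIdealRing (ResidueField O)[X])
      exact PrincipalIdealRing.isMaximal_of_irreducible hirr2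
    rw [Ideal.Quotient.maximal_ideal_iff_isField_quotient] at h1 ⊢
    exact MulEquiv.isField h1
      (AdjoinRoot.quotAdjoinRootEquivQuotPolynomialQuot (maximalIdeal O) F).toMulEquiv
  have huniq : ∀ M : Ideal (AdjoinRoot F), M.IsMaximal →
      M = (maximalIdeal O).map (AdjoinRoot.of F) := by
    intro M hM
    have h1 : (M.comap (algebraMap O (AdjoinRoot F))).IsMaximal :=
      Ideal.isMaximal_comap_of_isIntegral_of_isMaximal M
    have h2 : M.comap (algebraMap O (AdjoinRoot F)) = maximalIdeal O := eq_maximalIdeal h1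
    have h3 : (maximalIdeal O).map (AdjoinRoot.of F) ≤ M := by
      rw [Ideal.map_le_iff_le_comap, ← h2]
      exact le_refl _
    exact (hmax.eq_of_le hM.ne_top h3).symm
  have hloc : IsLocalRing (AdjoinRoot F) :=
    IsLocalRing.of_unique_max_ideal ⟨_, hmax, fun M hM => huniq M hM⟩
  have hmS : maximalIdeal (AdjoinRoot F) = (maximalIdeal O).map (AdjoinRoot.of F) :=
    huniq _ inferInstance
  have hpr : ∀ ϖ : O, Irreducible ϖ →
      maximalIdeal (AdjoinRoot F) = Ideal.span {AdjoinRoot.of F ϖ} := by
    intro ϖ hϖ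
    rw [hmS, (IsDiscreteValuationRing.irreducible_iff_uniformizer ϖ).1 hϖ, Ideal.map_span,
      Set.image_singleton]
  obtain ⟨ϖ, hϖ⟩ := IsDiscreteValuationRing.exists_irreducible O
  have hinj : Function.Injective (AdjoinRoot.of F) :=
    AdjoinRoot.of.injective_of_degree_ne_zero (by
      intro h0
      have h1 : F.natDegree = 0 := natDegree_eq_of_degree_eq_some h0
      have h2 : F = 1 := eq_one_of_monic_natDegree_zero hF h1
      exact hFi.not_isUnit (h2 ▸ isUnit_one))
  have hnf : ¬ IsField (AdjoinRoot F) := by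
    intro hf
    rw [IsLocalRing.isField_iff_maximalIdeal_eq, hpr ϖ hϖ, Ideal.span_singleton_eq_bot] at hf
    exact hϖ.ne_zero (hinj (by rw [hf, map_zero]))
  have hprin : (maximalIdeal (AdjoinRoot F)).IsPrincipal := ⟨⟨_, hpr ϖ hϖ⟩⟩
  have hdvr : IsDiscreteValuationRing (AdjoinRoot F) :=
    ((IsDiscreteValuationRing.TFAE (AdjoinRoot F) hnf).out 4 0).1 hprin
  refine ⟨hdom, hdvr, ?_, ?_, fun ϖ' hϖ' => ?_⟩
  · have h1 : IsAdicComplete (maximalIdeal O) (AdjoinRoot F) :=
      adic_of_basis (AdjoinRoot.powerBasis' hF).basis _ hc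
    have h2 := (IsAdicComplete.map_algebraMap_iff (S := AdjoinRoot F)
      (M := AdjoinRoot F) (I := maximalIdeal O)).2 h1
    have h3 : (maximalIdeal O).map (algebraMap O (AdjoinRoot F)) =
        maximalIdeal (AdjoinRoot F) := by
      rw [hmS]
      rfl
    rwa [h3] at h2
  · have h1 : Finite ((O ⧸ maximalIdeal O)[X] ⧸
        Ideal.span {F.map (Ideal.Quotient.mk (maximalIdeal O))}) := by
      have h2 : Finite (O ⧸ maximalIdeal O) := hfin
      have h3 : Module.Finite (O ⧸ maximalIdeal O)
          (AdjoinRoot (F.map (Ideal.Quotient.mk (maximalIdeal O)))) :=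
        (hF.map _).finite_adjoinRoot
      exact Module.finite_of_finite (O ⧸ maximalIdeal O)
        (M := AdjoinRoot (F.map (Ideal.Quotient.mk (maximalIdeal O))))
    have h2 : Finite (AdjoinRoot F ⧸ (maximalIdeal O).map (AdjoinRoot.of F)) :=
      Finite.of_equiv _
        (AdjoinRoot.quotAdjoinRootEquivQuotPolynomialQuot (maximalIdeal O) F).symm.toEquiv
    rw [← hmS] at h2
    exact h2
  · exact (IsDiscreteValuationRing.irreducible_iff_uniformizer _).2 (hpr ϖ' hϖ')

end Pool.NF
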